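import Pool.Agent.Mg.F94a669.Gd373e9

/-! Sharp count of the copies of an arbitrary oriented tree in a digraph, with an imbalance term. -/

namespace Pool.Agent.Results.MP_94a669_co.AllTrees

/-- `D` is a loopless digraph with `n` vertices, `m` arcs and imbalance
`η = ∑ max (outdeg v - indeg v) 0`; the oriented tree `A` has `k` arcs and levels in `0, …, l`
that go up by one along each arc. With `M = max (m - (l - 1) η) 0 = q n + r`, `0 ≤ r < n`, there are
at least (n - r) q (q-1) ⋯ (q-k+1) + r (q+1) q ⋯ (q-k+2) labelled copies of the tree. -/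
theorem result :
    ∀ (k l : ℕ) (V : Type) [Fintype V] [Nonempty V] (D : Digraph V),
      (∀ v, ¬ D.Adj v v) →
      ∀ (A : Fin (k + 1) → Fin (k + 1) → Prop),
        (SimpleGraph.fromRel A).IsTree →
        ∀ lev : Fin (k + 1) → ℕ, (∀ a, lev a ≤ l) → (∀ a b, A a b → lev b = lev a + 1) →
        ∀ n m η M : ℕ, n = Fintype.card V → m = Nat.card {p : V × V // D.Adj p.1 p.2} →
          η = ∑ v, (Nat.card {u // D.Adj v u} - Nat.card {u // D.Adj u v}) →
          M = m - (l - 1) * η →
          (n - M % n) * (M / n).descFactorial k + (M % n) * (M / n + 1).descFactorial k ≤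
            Nat.card {f : Fin (k + 1) → V // Function.Injective f ∧
              ∀ a b, A a b → D.Adj (f a) (f b)} := by
  intro k l V _ _ D hD A hT lev h1 h2 n m η M hn hm hη hM
  subst hn hm hη
  exact Pool.Agent.MP_94a669_co.G.all_trees k l D hD A hT lev h1 h2
    (Nat.mod_lt _ Fintype.card_pos).le (hM ▸ (Nat.div_add_mod' _ _).le)

end Pool.Agent.Results.MP_94a669_co.AllTrees
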